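import Pool.Agent.H73R2.Iv.Defs

set_option autoImplicit false

/-! Task N of TEAM-IV: the combinatorial part of the classification (necessity). -/

namespace Pool.Agent.H73R2.Iv

open SimpleGraph Pool.Agent.H175R2

namespace NN

variable {W : Type} {H : SimpleGraph W}

/-- types of vertices of `F1`: `0 = O`, `1 = Q`, `2 = p`, `3 = a`, `4 = b`, `5 = z` -/
def A1 (s t : Fin 6) : Prop :=
  (s.val ≤ 2 ∧ t.val ≤ 2) ∨ (s = 3 ∧ (t = 0 ∨ t = 2)) ∨ (t = 3 ∧ (s = 0 ∨ s = 2)) ∨
    (s = 4 ∧ (t = 0 ∨ t = 1)) ∨ (t = 4 ∧ (s = 0 ∨ s = 1))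

/-- types of vertices of `F2`: `0 = Q`, `1 = N`, `2 = p`, `3 = a`, `4 = b` -/
def A2 (s t : Fin 5) : Prop :=
  (s.val ≤ 2 ∧ t.val ≤ 2) ∨ (s = 3 ∧ t = 2) ∨ (t = 3 ∧ s = 2) ∨
    (s = 4 ∧ t = 0) ∨ (t = 4 ∧ s = 0)

/-- the map to `F1` -/
def m1 {r : ℕ} (i : Fin r) (s : Fin 6) : Fin r ⊕ Fin r ⊕ Fin 4 :=
  if s = 0 then .inl i else if s = 1 then .inr (.inl i) else
    if s = 2 then .inr (.inr 0) else if s = 3 then .inr (.inr 1) else
      if s = 4 then .inr (.inr 2) else .inr (.inr 3)

/-- the map to `F2` -/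
def m2 {r : ℕ} (i : Fin r) (s : Fin 5) : Fin r ⊕ Fin r ⊕ Fin 3 :=
  if s = 0 then .inl i else if s = 1 then .inr (.inl i) else
    if s = 2 then .inr (.inr 0) else if s = 3 then .inr (.inr 1) else .inr (.inr 2)

theorem m1_adj {r : ℕ} (i j : Fin r) (s t : Fin 6) (h : s ≤ 1 ∨ s ≠ t) (hij : i ≠ j) :
    m1 i s ≠ m1 j t ∧ ((F1 r).Adj (m1 i s) (m1 j t) ↔ A1 s t) := by
  fin_cases s <;> fin_cases t <;> simp_all [m1, F1, A1]

theorem m2_adj {r : ℕ} (i j : Fin r) (s t : Fin 5) (h : s ≤ 1 ∨ s ≠ t) (hij : i ≠ j) :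
    m2 i s ≠ m2 j t ∧ ((F2 r).Adj (m2 i s) (m2 j t) ↔ A2 s t) := by
  fin_cases s <;> fin_cases t <;> simp_all [m2, F2, A2]

theorem embed1 [Finite W] (τ : W → Fin 6) (huniq : ∀ x y, x ≠ y → τ x = τ y → τ x ≤ 1)
    (hadj : ∀ x y, x ≠ y → (H.Adj x y ↔ A1 (τ x) (τ y))) : ∃ r, H.IsIndContained (F1 r) := by
  refine ⟨Nat.card W, ?_⟩
  have e := Finite.equivFin W
  have key : ∀ x y, x ≠ y → m1 (e x) (τ x) ≠ m1 (e y) (τ y) ∧
      ((F1 _).Adj (m1 (e x) (τ x)) (m1 (e y) (τ y)) ↔ H.Adj x y) := by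
    intro x y hxy
    have h1 := m1_adj (e x) (e y) (τ x) (τ y) (by
      by_cases h : τ x = τ y
      · exact Or.inl (huniq x y hxy h)
      · exact Or.inr h) (fun h => hxy (e.injective h))
    exact ⟨h1.1, h1.2.trans (hadj x y hxy).symm⟩
  refine ⟨⟨⟨fun x => m1 (e x) (τ x), ?_⟩, ?_⟩⟩
  · intro x y hxy
    by_contra hne
    exact (key x y hne).1 hxy
  · intro x y
    by_cases hxy : x = y
    · subst hxy
      simp
    · exact (key x y hxy).2

theorem embed2 [Finite W] (τ : W → Fin 5) (huniq : ∀ x y, x ≠ y → τ x = τ y → τ x ≤ 1)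
    (hadj : ∀ x y, x ≠ y → (H.Adj x y ↔ A2 (τ x) (τ y))) : ∃ r, H.IsIndContained (F2 r) := by
  refine ⟨Nat.card W, ?_⟩
  have e := Finite.equivFin W
  have key : ∀ x y, x ≠ y → m2 (e x) (τ x) ≠ m2 (e y) (τ y) ∧
      ((F2 _).Adj (m2 (e x) (τ x)) (m2 (e y) (τ y)) ↔ H.Adj x y) := by
    intro x y hxy
    have h1 := m2_adj (e x) (e y) (τ x) (τ y) (by
      by_cases h : τ x = τ y
      · exact Or.inl (huniq x y hxy h)
      · exact Or.inr h) (fun h => hxy (e.injective h))
    exact ⟨h1.1, h1.2.trans (hadj x y hxy).symm⟩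
  refine ⟨⟨⟨fun x => m2 (e x) (τ x), ?_⟩, ?_⟩⟩
  · intro x y hxy
    by_contra hne
    exact (key x y hne).1 hxy
  · intro x y
    by_cases hxy : x = y
    · subst hxy
      simp
    · exact (key x y hxy).2

/-- independent sets have at most three vertices -/
theorem no4 (h3 : ThreeCliques H) {x y z t : W} (h12 : x ≠ y) (h13 : x ≠ z) (h14 : x ≠ t)
    (h23 : y ≠ z) (h24 : y ≠ t) (h34 : z ≠ t) (a12 : ¬ H.Adj x y) (a13 : ¬ H.Adj x z)
    (a14 : ¬ H.Adj x t) (a23 : ¬ H.Adj y z) (a24 : ¬ H.Adj y t) (a34 : ¬ H.Adj z t) : False := by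
  obtain ⟨κ, hκ⟩ := h3
  have b12 : κ x ≠ κ y := fun h => a12 (hκ _ _ h12 h)
  have b13 : κ x ≠ κ z := fun h => a13 (hκ _ _ h13 h)
  have b14 : κ x ≠ κ t := fun h => a14 (hκ _ _ h14 h)
  have b23 : κ y ≠ κ z := fun h => a23 (hκ _ _ h23 h)
  have b24 : κ y ≠ κ t := fun h => a24 (hκ _ _ h24 h)
  have b34 : κ z ≠ κ t := fun h => a34 (hκ _ _ h34 h)
  omega

/-- case B: at most one non isolated vertex outside the clique -/
theorem caseB [Finite W] (K : W → Prop) (hK : ∀ u v, u ≠ v → K u → K v → H.Adj u v)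
    (hI : ∀ u v, ¬ K u → ¬ K v → ¬ H.Adj u v) (a : W) (ha : ¬ K a)
    (hT : ∀ t, ¬ K t → t ≠ a → ∀ w, ¬ H.Adj t w)
    (hT1 : ∀ t t', ¬ K t → ¬ K t' → t ≠ a → t' ≠ a → t = t') : ∃ r, H.IsIndContained (F1 r) := by
  classical
  let τ : W → Fin 6 := fun x => if x = a then 3 else if K x then (if H.Adj x a then 0 else 1) else 5
  have τa : τ a = 3 := by simp [τ]
  have τK : ∀ x, K x → τ x = if H.Adj x a then 0 else 1 := by
    intro x hx
    have : x ≠ a := fun h => ha (h ▸ hx)
    simp [τ, this, hx]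
  have τT : ∀ x, ¬ K x → x ≠ a → τ x = 5 := by
    intro x hx hxa
    simp [τ, hxa, hx]
  have cas : ∀ x, x = a ∨ K x ∨ (¬ K x ∧ x ≠ a) := by
    intro x; tauto
  apply embed1 τ
  · intro x y hxy h
    rcases cas x with rfl | hx | ⟨hx, hxa⟩
    · rcases cas y with rfl | hy | ⟨hy, hya⟩
      · exact absurd rfl hxy
      · rw [τa, τK y hy] at h
        split_ifs at h <;> simp at h
      · rw [τa, τT y hy hya] at h
        simp at h
    · rw [τK x hx]
      split_ifs <;> decide
    · rcases cas y with rfl | hy | ⟨hy, hya⟩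
      · rw [τa, τT x hx hxa] at h
        simp at h
      · rw [τT x hx hxa, τK y hy] at h
        split_ifs at h <;> simp at h
      · exact absurd (hT1 x y hx hy hxa hya) hxy
  · intro x y hxy
    rcases cas x with rfl | hx | ⟨hx, hxa⟩
    · rcases cas y with rfl | hy | ⟨hy, hya⟩
      · exact absurd rfl hxy
      · rw [τa, τK y hy, H.adj_comm]
        split_ifs with h <;> simp [h, A1]
      · rw [τa, τT y hy hya]
        simp [A1, hI x y ha hy]
    · rcases cas y with rfl | hy | ⟨hy, hya⟩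
      · rw [τa, τK x hx]
        split_ifs with h <;> simp [h, A1]
      · rw [τK x hx, τK y hy]
        have := hK x y hxy hx hy
        split_ifs <;> simp [this, A1]
      · have h1 := hT y hy hya x
        rw [H.adj_comm, τK x hx, τT y hy hya]
        split_ifs <;> simp [h1, A1]
    · have h1 := hT x hx hxa y
      rcases cas y with rfl | hy | ⟨hy, hya⟩
      · rw [τa, τT x hx hxa]
        simp [A1, h1]
      · rw [τK y hy, τT x hx hxa]
        split_ifs <;> simp [h1, A1]
      · rw [τT y hy hya, τT x hx hxa]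
        simp [h1, A1]

/-- case A1: two non isolated vertices `a, b` outside the clique, no vertex of the clique is
non-adjacent to both -/
theorem caseA1 [Finite W] (K : W → Prop) (hK : ∀ u v, u ≠ v → K u → K v → H.Adj u v)
    (hI : ∀ u v, ¬ K u → ¬ K v → ¬ H.Adj u v) (a b : W) (ha : ¬ K a) (hb : ¬ K b) (hab : a ≠ b)
    (hT : ∀ t, ¬ K t → t ≠ a → t ≠ b → ∀ w, ¬ H.Adj t w)
    (hT1 : ∀ t t', ¬ K t → ¬ K t' → t ≠ a → t ≠ b → t' ≠ a → t' ≠ b → t = t')
    (hN : ∀ x, K x → H.Adj x a ∨ H.Adj x b)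
    (hP : ∀ p p', K p → K p' → ¬ H.Adj p b → ¬ H.Adj p' b → p = p') :
    ∃ r, H.IsIndContained (F1 r) := by
  classical
  let τ : W → Fin 6 := fun x => if x = a then 3 else if x = b then 4 else
    if K x then (if H.Adj x b then (if H.Adj x a then 0 else 1) else 2) else 5
  have τa : τ a = 3 := by simp [τ]
  have τb : τ b = 4 := by simp [τ, hab.symm]
  have τK : ∀ x, K x → τ x = if H.Adj x b then (if H.Adj x a then 0 else 1) else 2 := by
    intro x hx
    have h1 : x ≠ a := fun h => ha (h ▸ hx)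
    have h2 : x ≠ b := fun h => hb (h ▸ hx)
    simp [τ, h1, h2, hx]
  have τT : ∀ x, ¬ K x → x ≠ a → x ≠ b → τ x = 5 := by
    intro x hx hxa hxb
    simp [τ, hxa, hxb, hx]
  have cas : ∀ x, x = a ∨ x = b ∨ K x ∨ (¬ K x ∧ x ≠ a ∧ x ≠ b) := by
    intro x; tauto
  apply embed1 τ
  · intro x y hxy h
    rcases cas x with rfl | rfl | hx | ⟨hx, hxa, hxb⟩
    · rcases cas y with rfl | rfl | hy | ⟨hy, hya, hyb⟩
      · exact absurd rfl hxy
      · rw [τa, τb] at h; simp at h
      · rw [τa, τK y hy] at h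
        split_ifs at h <;> simp at h
      · rw [τa, τT y hy hya hyb] at h
        simp at h
    · rcases cas y with rfl | rfl | hy | ⟨hy, hya, hyb⟩
      · rw [τa, τb] at h; simp at h
      · exact absurd rfl hxy
      · rw [τb, τK y hy] at h
        split_ifs at h <;> simp at h
      · rw [τb, τT y hy hya hyb] at h
        simp at h
    · rcases cas y with rfl | rfl | hy | ⟨hy, hya, hyb⟩
      · rw [τa, τK x hx] at h
        split_ifs at h <;> simp at h
      · rw [τb, τK x hx] at h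
        split_ifs at h <;> simp at h
      · rw [τK x hx, τK y hy] at h
        rw [τK x hx]
        by_cases h1 : H.Adj x b
        · rw [if_pos h1]
          split_ifs <;> decide
        · by_cases h2 : H.Adj y b
          · rw [if_neg h1, if_pos h2] at h
            split_ifs at h <;> simp at h
          · exact absurd (hP x y hx hy h1 h2) hxy
      · rw [τK x hx, τT y hy hya hyb] at h
        split_ifs at h <;> simp at h
    · rcases cas y with rfl | rfl | hy | ⟨hy, hya, hyb⟩
      · rw [τa, τT x hx hxa hxb] at h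
        simp at h
      · rw [τb, τT x hx hxa hxb] at h
        simp at h
      · rw [τT x hx hxa hxb, τK y hy] at h
        split_ifs at h <;> simp at h
      · exact absurd (hT1 x y hx hy hxa hxb hya hyb) hxy
  · intro x y hxy
    rcases cas x with rfl | rfl | hx | ⟨hx, hxa, hxb⟩
    · rcases cas y with rfl | rfl | hy | ⟨hy, hya, hyb⟩
      · exact absurd rfl hxy
      · rw [τa, τb]
        simp [A1, hI x y ha hb]
      · rw [τa, τK y hy, H.adj_comm]
        have := hN y hy
        split_ifs with h h' <;> simp_all [A1]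
      · rw [τa, τT y hy hya hyb]
        simp [A1, hI x y ha hy]
    · rcases cas y with rfl | rfl | hy | ⟨hy, hya, hyb⟩
      · rw [τa, τb]
        simp [A1, hI x y hb ha]
      · exact absurd rfl hxy
      · rw [τb, τK y hy, H.adj_comm]
        split_ifs with h h' <;> simp_all [A1]
      · rw [τb, τT y hy hya hyb]
        simp [A1, hI x y hb hy]
    · rcases cas y with rfl | rfl | hy | ⟨hy, hya, hyb⟩
      · rw [τa, τK x hx]
        have := hN x hx
        split_ifs with h h' <;> simp_all [A1]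
      · rw [τb, τK x hx]
        split_ifs with h h' <;> simp_all [A1]
      · rw [τK x hx, τK y hy]
        have := hK x y hxy hx hy
        split_ifs <;> simp [this, A1]
      · have h1 := hT y hy hya hyb x
        rw [H.adj_comm, τK x hx, τT y hy hya hyb]
        split_ifs <;> simp [h1, A1]
    · have h1 := hT x hx hxa hxb y
      rcases cas y with rfl | rfl | hy | ⟨hy, hya, hyb⟩
      · rw [τa, τT x hx hxa hxb]
        simp [A1, h1]
      · rw [τb, τT x hx hxa hxb]
        simp [A1, h1]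
      · rw [τK y hy, τT x hx hxa hxb]
        split_ifs <;> simp [h1, A1]
      · rw [τT y hy hya hyb, τT x hx hxa hxb]
        simp [h1, A1]

/-- case A2: two non isolated vertices `a, b` outside the clique, no vertex of the clique is
adjacent to both, no other vertex outside the clique -/
theorem caseA2 [Finite W] (K : W → Prop) (hK : ∀ u v, u ≠ v → K u → K v → H.Adj u v)
    (hI : ∀ u v, ¬ K u → ¬ K v → ¬ H.Adj u v) (a b : W) (ha : ¬ K a) (hb : ¬ K b) (hab : a ≠ b)
    (hT : ∀ t, ¬ K t → t = a ∨ t = b)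
    (hO : ∀ x, K x → ¬ (H.Adj x a ∧ H.Adj x b))
    (hP : ∀ p p', K p → K p' → H.Adj p a → H.Adj p' a → p = p') :
    ∃ r, H.IsIndContained (F2 r) := by
  classical
  let τ : W → Fin 5 := fun x => if x = a then 3 else if x = b then 4 else
    if H.Adj x a then 2 else if H.Adj x b then 0 else 1
  have τa : τ a = 3 := by simp [τ]
  have τb : τ b = 4 := by simp [τ, hab.symm]
  have τK : ∀ x, K x → τ x = if H.Adj x a then 2 else if H.Adj x b then 0 else 1 := by
    intro x hx
    have h1 : x ≠ a := fun h => ha (h ▸ hx)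
    have h2 : x ≠ b := fun h => hb (h ▸ hx)
    simp [τ, h1, h2]
  have cas : ∀ x, x = a ∨ x = b ∨ K x := by
    intro x
    by_cases hx : K x
    · exact Or.inr (Or.inr hx)
    · have := hT x hx
      tauto
  apply embed2 τ
  · intro x y hxy h
    rcases cas x with rfl | rfl | hx
    · rcases cas y with rfl | rfl | hy
      · exact absurd rfl hxy
      · rw [τa, τb] at h; simp at h
      · rw [τa, τK y hy] at h
        split_ifs at h <;> simp at h
    · rcases cas y with rfl | rfl | hy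
      · rw [τa, τb] at h; simp at h
      · exact absurd rfl hxy
      · rw [τb, τK y hy] at h
        split_ifs at h <;> simp at h
    · rcases cas y with rfl | rfl | hy
      · rw [τa, τK x hx] at h
        split_ifs at h <;> simp at h
      · rw [τb, τK x hx] at h
        split_ifs at h <;> simp at h
      · rw [τK x hx, τK y hy] at h
        rw [τK x hx]
        by_cases h1 : H.Adj x a
        · by_cases h2 : H.Adj y a
          · exact absurd (hP x y hx hy h1 h2) hxy
          · rw [if_pos h1, if_neg h2] at h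
            split_ifs at h <;> simp at h
        · rw [if_neg h1]
          split_ifs <;> decide
  · intro x y hxy
    rcases cas x with rfl | rfl | hx
    · rcases cas y with rfl | rfl | hy
      · exact absurd rfl hxy
      · rw [τa, τb]
        simp [A2, hI x y ha hb]
      · rw [τa, τK y hy, H.adj_comm]
        split_ifs with h h' <;> simp_all [A2]
    · rcases cas y with rfl | rfl | hy
      · rw [τa, τb]
        simp [A2, hI x y hb ha]
      · exact absurd rfl hxy
      · rw [τb, τK y hy, H.adj_comm]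
        have := hO y hy
        split_ifs with h h' <;> simp_all [A2]
    · rcases cas y with rfl | rfl | hy
      · rw [τa, τK x hx]
        split_ifs with h h' <;> simp_all [A2]
      · rw [τb, τK x hx]
        have := hO x hx
        split_ifs with h h' <;> simp_all [A2]
      · rw [τK x hx, τK y hy]
        have := hK x y hxy hx hy
        split_ifs <;> simp [this, A2]

/-- the split partition with a maximal clique -/
theorem exists_split (h2 : TwoChainSplit H) : ∃ (K : W → Prop) (κ : W → Fin 3),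
    (∀ u v, u ≠ v → K u → K v → H.Adj u v) ∧ (∀ u v, ¬ K u → ¬ K v → ¬ H.Adj u v) ∧
    (∀ u v, ¬ K u → ¬ K v → κ u = κ v →
      (∀ w, H.Adj u w → H.Adj v w) ∨ (∀ w, H.Adj v w → H.Adj u w)) ∧
    (∀ u, ¬ K u → κ u ≠ 0) ∧ ∀ u, ¬ K u → ∃ w, K w ∧ ¬ H.Adj u w := by
  obtain ⟨κ, c1, c2, c3⟩ := h2
  by_cases hv : ∃ v, κ v ≠ 0 ∧ ∀ w, κ w = 0 → H.Adj v w
  · obtain ⟨v, hv0, hv⟩ := hv
    refine ⟨fun x => κ x = 0 ∨ x = v, κ, ?_, ?_, ?_, ?_, ?_⟩
    · rintro x y hxy (hx | rfl) (hy | rfl)
      · exact c1 x y hxy hx hy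
      · exact (hv x hx).symm
      · exact hv y hy
      · exact absurd rfl hxy
    · intro x y hx hy
      push Not at hx hy
      exact c2 x y hx.1 hy.1
    · intro x y hx hy hxy
      push Not at hx hy
      exact c3 x y hxy hx.1
    · intro x hx
      push Not at hx
      exact hx.1
    · intro x hx
      push Not at hx
      exact ⟨v, Or.inr rfl, c2 x v hx.1 hv0⟩
  · push Not at hv
    exact ⟨fun x => κ x = 0, κ, c1, fun x y hx hy => c2 x y hx hy,
      fun x y hx _ hxy => c3 x y hxy hx, fun x hx => hx, hv⟩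

end NN

open NN in
/-- `H` claw-free, split with two chains, union of three cliques, without `C22`: `H` is an
induced subgraph of some `F1 r` or `F2 r` -/
theorem necessity {W : Type} [Finite W] (H : SimpleGraph W) (h1 : ClawFree H)
    (h2 : TwoChainSplit H) (h3 : ThreeCliques H) (h4 : NoC22 H) :
    ∃ r, H.IsIndContained (F1 r) ∨ H.IsIndContained (F2 r) := by
  obtain ⟨K, κ, hK, hI, hC, hκ, hM⟩ := exists_split h2
  suffices h : (∃ r, H.IsIndContained (F1 r)) ∨ (∃ r, H.IsIndContained (F2 r)) by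
    rcases h with ⟨r, h⟩ | ⟨r, h⟩
    · exact ⟨r, Or.inl h⟩
    · exact ⟨r, Or.inr h⟩
  have inK : ∀ u w, ¬ K u → H.Adj u w → K w := by
    intro u w hu h
    by_contra hw
    exact hI u w hu hw h
  -- two non isolated vertices outside `K` have different `κ`
  have step : ∀ u v, u ≠ v → ¬ K u → ¬ K v → (∃ w, H.Adj u w) → (∃ w, H.Adj v w) →
      κ u = κ v → False := by
    have st : ∀ u v, u ≠ v → ¬ K u → ¬ K v → (∃ w, H.Adj v w) →
        (∀ w, H.Adj v w → H.Adj u w) → False := by
      intro u v huv hu hv ⟨k, hk⟩ hsub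
      obtain ⟨k', hk', hk'u⟩ := hM u hu
      have hkK := inK v k hv hk
      have hkk' : k ≠ k' := fun h => hk'u (h ▸ hsub k hk)
      rcases h1 k u v k' huv (fun h => hu (h ▸ hk')) (fun h => hv (h ▸ hk')) (hsub k hk).symm
        hk.symm (hK k k' hkk' hkK hk') with h | h | h
      · exact hI u v hu hv h
      · exact hk'u h
      · exact hk'u (hsub _ h)
    intro u v huv hu hv hu' hv' hκuv
    rcases hC u v hu hv hκuv with h | h
    · exact st v u huv.symm hv hu hu' h
    · exact st u v huv hu hv hv' h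
  by_cases hall : ∀ x, K x
  · left
    apply embed1 (fun _ => 1)
    · intro x y _ _
      exact le_rfl
    · intro x y hxy
      have := hK x y hxy (hall x) (hall y)
      simp [this, A1]
  push Not at hall
  by_cases hAB : ∃ a b, a ≠ b ∧ ¬ K a ∧ ¬ K b ∧ (∃ w, H.Adj a w) ∧ (∃ w, H.Adj b w)
  · obtain ⟨a, b, hab, ha, hb, ha', hb'⟩ := hAB
    have hκab : κ a ≠ κ b := fun h => step a b hab ha hb ha' hb' h
    have hT : ∀ t, ¬ K t → t ≠ a → t ≠ b → ∀ w, ¬ H.Adj t w := by
      intro t ht hta htb w hw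
      have k1 : κ t ≠ κ a := fun h => step t a hta ht ha ⟨w, hw⟩ ha' h
      have k2 : κ t ≠ κ b := fun h => step t b htb ht hb ⟨w, hw⟩ hb' h
      have k3 := hκ t ht
      have k4 := hκ a ha
      have k5 := hκ b hb
      omega
    have hT1 : ∀ t t', ¬ K t → ¬ K t' → t ≠ a → t ≠ b → t' ≠ a → t' ≠ b → t = t' := by
      intro t t' ht ht' hta htb hta' htb'
      by_contra htt
      exact no4 h3 hab hta.symm hta'.symm htb.symm htb'.symm htt (hI a b ha hb) (hI a t ha ht)
        (hI a t' ha ht') (hI b t hb ht) (hI b t' hb ht') (hI t t' ht ht')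
    have hON : ∀ o ν, K o → K ν → H.Adj o a → H.Adj o b → ¬ H.Adj ν a → ¬ H.Adj ν b → False := by
      intro o ν ho hν hoa hob hνa hνb
      have hne : o ≠ ν := fun h => hνa (h ▸ hoa)
      rcases h1 o a b ν hab (fun h => ha (h ▸ hν)) (fun h => hb (h ▸ hν)) hoa hob
        (hK o ν hne ho hν) with h | h | h
      · exact hI a b ha hb h
      · exact hνa h.symm
      · exact hνb h.symm
    have hPQ : (∀ p p', K p → K p' → H.Adj p a → H.Adj p' a → ¬ H.Adj p b → ¬ H.Adj p' b → p = p') ∨
        (∀ q q', K q → K q' → H.Adj q b → H.Adj q' b → ¬ H.Adj q a → ¬ H.Adj q' a → q = q') := by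
      by_contra hcon
      push Not at hcon
      obtain ⟨⟨p, p', hp, hp', hpa, hpa', hpb, hpb', hpp⟩, q, q', hq, hq', hqb, hqb', hqa, hqa',
        hqq⟩ := hcon
      have n1 : p ≠ q := fun h => hqa (h ▸ hpa)
      have n2 : p ≠ q' := fun h => hqa' (h ▸ hpa)
      have n3 : p' ≠ q := fun h => hqa (h ▸ hpa')
      have n4 : p' ≠ q' := fun h => hqa' (h ▸ hpa')
      exact h4 p p' q q' a b hpp hqq (hK _ _ hpp hp hp') (hK _ _ hqq hq hq') (hK _ _ n1 hp hq)
        (hK _ _ n2 hp hq') (hK _ _ n3 hp' hq) (hK _ _ n4 hp' hq') hpa.symm hpa'.symm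
        (fun h => hqa h.symm) (fun h => hqa' h.symm) hqb.symm hqb'.symm (fun h => hpb h.symm)
        (fun h => hpb' h.symm) hab (hI a b ha hb)
    by_cases hN : ∀ x, K x → H.Adj x a ∨ H.Adj x b
    · left
      rcases hPQ with hP | hQ
      · refine caseA1 K hK hI a b ha hb hab hT hT1 hN ?_
        intro p p' hp hp' hpb hpb'
        exact hP p p' hp hp' ((hN p hp).resolve_right hpb) ((hN p' hp').resolve_right hpb') hpb hpb'
      · refine caseA1 K hK hI b a hb ha hab.symm (fun t ht h h' => hT t ht h' h)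
          (fun t t' ht ht' x1 x2 x3 x4 => hT1 t t' ht ht' x2 x1 x4 x3) (fun x hx => (hN x hx).symm) ?_
        intro p p' hp hp' hpb hpb'
        exact hQ p p' hp hp' ((hN p hp).resolve_left hpb) ((hN p' hp').resolve_left hpb') hpb hpb'
    · right
      push Not at hN
      obtain ⟨ν, hν, hνa, hνb⟩ := hN
      have hO : ∀ x, K x → ¬ (H.Adj x a ∧ H.Adj x b) := fun x hx h =>
        hON x ν hx hν h.1 h.2 hνa hνb
      have hT0 : ∀ t, ¬ K t → t = a ∨ t = b := by
        intro t ht
        by_contra hcon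
        push Not at hcon
        exact no4 h3 hab hcon.1.symm (fun h => ha (h ▸ hν)) hcon.2.symm (fun h => hb (h ▸ hν))
          (fun h => ht (h ▸ hν)) (hI a b ha hb) (hI a t ha ht) (fun h => hνa h.symm) (hI b t hb ht)
          (fun h => hνb h.symm) (hT t ht hcon.1 hcon.2 ν)
      rcases hPQ with hP | hQ
      · refine caseA2 K hK hI a b ha hb hab hT0 hO ?_
        intro p p' hp hp' hpa hpa'
        exact hP p p' hp hp' hpa hpa' (fun h => hO p hp ⟨hpa, h⟩) (fun h => hO p' hp' ⟨hpa', h⟩)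
      · refine caseA2 K hK hI b a hb ha hab.symm (fun t ht => (hT0 t ht).symm)
          (fun x hx h => hO x hx h.symm) ?_
        intro p p' hp hp' hpb hpb'
        exact hQ p p' hp hp' hpb hpb' (fun h => hO p hp ⟨h, hpb⟩) (fun h => hO p' hp' ⟨h, hpb'⟩)
  · left
    push Not at hAB
    obtain ⟨a, ha, hT⟩ : ∃ a, ¬ K a ∧ ∀ t, ¬ K t → t ≠ a → ∀ w, ¬ H.Adj t w := by
      by_cases hex : ∃ a, ¬ K a ∧ ∃ w, H.Adj a w
      · obtain ⟨a, ha, w, hw⟩ := hex
        exact ⟨a, ha, fun t ht hta => hAB a t hta.symm ha ht ⟨w, hw⟩⟩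
      · push Not at hex
        obtain ⟨a, ha⟩ := hall
        exact ⟨a, ha, fun t ht _ => hex t ht⟩
    refine caseB K hK hI a ha hT ?_
    intro t t' ht ht' hta hta'
    by_contra htt
    obtain ⟨ν, hν, hνa⟩ := hM a ha
    exact no4 h3 hta.symm hta'.symm (fun h => ha (h ▸ hν)) htt (fun h => ht (h ▸ hν))
      (fun h => ht' (h ▸ hν)) (hI a t ha ht) (hI a t' ha ht') hνa (hI t t' ht ht')
      (hT t ht hta ν) (hT t' ht' hta' ν)

end Pool.Agent.H73R2.Iv
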