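import Pool.Agent.H73R2.Iv.Defs
import Pool.Agent.H175R2.Cut

set_option autoImplicit false

/-! Task U of TEAM-IV: powers of paths are claw-free interval graphs of unbounded clique-width. -/

namespace Pool.Agent.H73R2.Iv

open SimpleGraph Pool.Agent.H175R2

namespace UU

/-- position of a vertex -/
def ff (C n : ℕ) (p : Fin C × Fin n) : ℕ := p.1.val * n + p.2.val

theorem ff_mod (C n : ℕ) (p : Fin C × Fin n) : ff C n p % n = p.2.val := by
  unfold ff
  rw [Nat.add_comm, Nat.add_mul_mod_self_right, Nat.mod_eq_of_lt p.2.2]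

/-- power of a path -/
def GU (C n : ℕ) : SimpleGraph (Fin C × Fin n) where
  Adj p q := p ≠ q ∧ ff C n p ≤ ff C n q + n ∧ ff C n q ≤ ff C n p + n
  symm := ⟨fun _ _ h => ⟨h.1.symm, h.2.2, h.2.1⟩⟩
  loopless := ⟨fun _ h => h.1 rfl⟩

theorem adj_iff {C n : ℕ} (p q : Fin C × Fin n) : (GU C n).Adj p q ↔
    p ≠ q ∧ ff C n p ≤ ff C n q + n ∧ ff C n q ≤ ff C n p + n := Iff.rfl

theorem interval (C n : ℕ) : IsIntervalGraph (GU C n) := by
  refine isIntervalGraph_of_int _ (fun p => (ff C n p : ℤ)) (fun p => (ff C n p : ℤ) + n)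
    (fun p => by omega) ?_
  intro p q hpq
  rw [adj_iff]
  constructor
  · rintro ⟨_, h1, h2⟩
    constructor <;> omega
  · rintro ⟨h1, h2⟩
    exact ⟨hpq, by omega, by omega⟩

theorem ff_inj {C n : ℕ} {p q : Fin C × Fin n} (h : ff C n p = ff C n q) : p = q := by
  have h1 : p.2 = q.2 := Fin.ext (by rw [← ff_mod C n p, ← ff_mod C n q, h])
  have h2 : p.1.val * n = q.1.val * n := by
    unfold ff at h
    rw [h1] at h
    omega
  have hn : 0 < n := lt_of_le_of_lt (Nat.zero_le _) p.2.2
  exact Prod.ext (Fin.ext (Nat.eq_of_mul_eq_mul_right hn h2)) h1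

theorem claw (C n : ℕ) : ClawFree (GU C n) := by
  intro x a b c hab hac hbc h1 h2 h3
  rw [adj_iff] at *
  rw [adj_iff, adj_iff]
  have e1 : ff C n a ≠ ff C n b := fun h => hab (ff_inj h)
  have e2 : ff C n a ≠ ff C n c := fun h => hac (ff_inj h)
  have e3 : ff C n b ≠ ff C n c := fun h => hbc (ff_inj h)
  by_contra hcon
  push Not at hcon
  obtain ⟨c1, c2, c3⟩ := hcon
  have d1 := c1 hab
  have d2 := c2 hac
  have d3 := c3 hbc
  omega

open Classical in
/-- columns with two colours -/
noncomputable def bad {C n : ℕ} (A : Set (Fin C × Fin n)) : Finset (Fin n) :=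
  Finset.univ.filter (fun r => (∃ i, (i, r) ∈ A) ∧ ∃ i, (i, r) ∉ A)

theorem bad_le {C n k : ℕ} (hC : 0 < C) (A : Set (Fin C × Fin n)) (h : Types (GU C n) A k) :
    (bad A).card ≤ 2 * k := by
  classical
  haveI : Nonempty (Fin C) := ⟨⟨0, hC⟩⟩
  obtain ⟨l, hl⟩ := h
  have hch : ∀ r : Fin n, r ∈ bad A → ∃ a b : Fin C, (a, r) ∈ A ∧ (b, r) ∉ A ∧
      (a.val + 1 = b.val ∨ b.val + 1 = a.val) := by
    intro r hr
    simp only [bad, Finset.mem_filter, Finset.mem_univ, true_and] at hr
    exact CutAux.step_exists (fun i => (i, r) ∈ A) hr.1 hr.2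
  choose! a b ha hb hab using hch
  have key : ∀ r r' : Fin n, r ∈ bad A → r' ∈ bad A → l (a r, r) = l (a r', r') →
      (a r < b r ↔ a r' < b r') → ¬ ff C n (a r, r) < ff C n (a r', r') := by
    intro r r' hr hr' hll hsg hlt
    have hn : 0 < n := lt_of_le_of_lt (Nat.zero_le _) r.2
    by_cases hs : a r < b r
    · have hs' := hsg.1 hs
      have e : (b r').val = (a r').val + 1 := by
        rcases hab r' hr' with h | h
        · omega
        · have : (a r').val < (b r').val := hs'
          omega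
      have hz : ff C n (b r', r') = ff C n (a r', r') + n := by
        simp only [ff]
        rw [e, Nat.succ_mul]
        omega
      have h1 : (GU C n).Adj (a r', r') (b r', r') := by
        rw [adj_iff]
        refine ⟨?_, by omega, by omega⟩
        intro h
        rw [h] at hz
        omega
      have h2 := (hl _ (ha r hr) _ (ha r' hr') hll _ (hb r' hr')).2 h1
      rw [adj_iff] at h2
      omega
    · have e : (a r).val = (b r).val + 1 := by
        rcases hab r hr with h | h
        · exact absurd (show (a r).val < (b r).val by omega) hs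
        · omega
      have hz : ff C n (a r, r) = ff C n (b r, r) + n := by
        simp only [ff]
        rw [e, Nat.succ_mul]
        omega
      have h1 : (GU C n).Adj (a r, r) (b r, r) := by
        rw [adj_iff]
        refine ⟨?_, by omega, by omega⟩
        intro h
        rw [h] at hz
        omega
      have h2 := (hl _ (ha r hr) _ (ha r' hr') hll _ (hb r hr)).1 h1
      rw [adj_iff] at h2
      omega
  have hcard : (bad A).card ≤ (Finset.univ : Finset (Fin k × Bool)).card := by
    apply Finset.card_le_card_of_injOn (fun r => (l (a r, r), decide (a r < b r)))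
    · intro _ _
      exact Finset.mem_coe.2 (Finset.mem_univ _)
    · intro r hr r' hr' hrr
      simp only [Prod.mk.injEq, decide_eq_decide] at hrr
      have k1 := key r r' hr hr' hrr.1 hrr.2
      have k2 := key r' r hr' hr hrr.1.symm hrr.2.symm
      have : ff C n (a r, r) = ff C n (a r', r') := by omega
      exact congrArg Prod.snd (ff_inj this)
  simpa [mul_comm] using hcard

theorem card_le_bad {C n : ℕ} (A : Set (Fin C × Fin n)) (h : ∀ r, (∃ i, (i, r) ∈ A) → r ∈ bad A) :
    A.ncard ≤ C * (bad A).card := by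
  have h1 : A ⊆ (((Finset.univ : Finset (Fin C)) ×ˢ bad A : Finset _) : Set (Fin C × Fin n)) := by
    rintro ⟨i, r⟩ hir
    simp only [Finset.coe_product, Finset.coe_univ, Set.mem_prod, Finset.mem_coe, Set.mem_univ,
      true_and]
    exact h r ⟨i, hir⟩
  have h2 := Set.ncard_le_ncard h1 (Finset.finite_toSet _)
  rw [Set.ncard_coe_finset, Finset.card_product] at h2
  simpa using h2

theorem bad_compl {C n : ℕ} (A : Set (Fin C × Fin n)) : bad Aᶜ = bad A := by
  ext i
  simp only [bad, Finset.mem_filter, Finset.mem_univ, true_and, Set.mem_compl_iff, not_not]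
  tauto

theorem not_cw (k : ℕ) : ¬ CwLE (GU (2 * k + 2) (6 * k + 1)) k := by
  classical
  intro hcw
  have hcard : (Set.univ : Set (Fin (2 * k + 2) × Fin (6 * k + 1))).ncard =
      (2 * k + 2) * (6 * k + 1) := by
    rw [Set.ncard_univ]; simp
  obtain ⟨A, hT, h1, h2⟩ := balanced_cut _ k hcw Set.univ (by rw [hcard]; nlinarith)
  rw [Set.inter_univ, hcard] at h1 h2
  have hcompl : A.ncard + Aᶜ.ncard = (2 * k + 2) * (6 * k + 1) := by
    rw [Set.ncard_add_ncard_compl]; simp
  have hm := bad_le (by omega) A hT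
  have hred : ∃ r, ∀ i, (i, r) ∈ A := by
    by_contra hcon
    push Not at hcon
    have h3 : A.ncard ≤ (2 * k + 2) * (bad A).card := by
      apply card_le_bad
      rintro r ⟨i, hi⟩
      simp only [bad, Finset.mem_filter, Finset.mem_univ, true_and]
      exact ⟨⟨i, hi⟩, hcon r⟩
    nlinarith
  have hblue : ∃ r, ∀ i, (i, r) ∉ A := by
    by_contra hcon
    push Not at hcon
    have h3 : Aᶜ.ncard ≤ (2 * k + 2) * (bad Aᶜ).card := by
      apply card_le_bad
      rintro r ⟨i, hi⟩
      rw [bad_compl]
      simp only [bad, Finset.mem_filter, Finset.mem_univ, true_and]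
      exact ⟨hcon r, i, hi⟩
    rw [bad_compl] at h3
    nlinarith
  obtain ⟨r1, hr1⟩ := hred
  obtain ⟨r2, hr2⟩ := hblue
  have hst : ∀ i : Fin (2 * k + 2), ∃ a b : Fin (6 * k + 1), (i, a) ∈ A ∧ (i, b) ∉ A ∧
      (a.val + 1 = b.val ∨ b.val + 1 = a.val) := fun i =>
    CutAux.step_exists (fun r => (i, r) ∈ A) ⟨r1, hr1 i⟩ ⟨r2, hr2 i⟩
  choose a b ha hb hab using hst
  obtain ⟨l, hl⟩ := hT
  let e : Fin (k + 1) → Fin (2 * k + 2) := fun j => ⟨2 * j.val, by omega⟩
  have key : ∀ j j' : Fin (k + 1), l (e j, a (e j)) = l (e j', a (e j')) → ¬ j < j' := by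
    intro j j' hll hlt
    have hadj : (GU (2 * k + 2) (6 * k + 1)).Adj (e j, a (e j)) (e j, b (e j)) := by
      rw [adj_iff]
      simp only [ff, ne_eq, Prod.mk.injEq, true_and]
      refine ⟨?_, ?_, ?_⟩
      · intro h
        have := hab (e j)
        rw [h] at this
        omega
      · have := hab (e j); omega
      · have := hab (e j); omega
    have h3 := (hl _ (ha (e j)) _ (ha (e j')) hll _ (hb (e j))).1 hadj
    rw [adj_iff] at h3
    have h4 := h3.2.1
    simp only [ff, e] at h4
    have h5 : (2 * j.val + 2) * (6 * k + 1) ≤ 2 * j'.val * (6 * k + 1) := by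
      apply Nat.mul_le_mul_right
      have : j.val < j'.val := hlt
      omega
    have h6 := (b (e j)).2
    rw [Nat.add_mul] at h5
    simp only [e] at h6
    omega
  have hinj : Function.Injective (fun j : Fin (k + 1) => l (e j, a (e j))) := by
    intro j j' h
    have k1 := key j j' h
    have k2 := key j' j h.symm
    exact le_antisymm (not_lt.1 k2) (not_lt.1 k1)
  have := Fintype.card_le_of_injective _ hinj
  simp at this

end UU

/-- powers of paths: claw-free interval graphs have unbounded clique-width -/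
theorem famU (c : ℕ) : ∃ (V : Type) (_ : Finite V) (_ : Nonempty V) (G : SimpleGraph V),
    IsIntervalGraph G ∧ ClawFree G ∧ ¬ CwLE G c :=
  ⟨Fin (2 * c + 2) × Fin (6 * c + 1), inferInstance, ⟨(⟨0, by omega⟩, ⟨0, by omega⟩)⟩,
    UU.GU _ _, UU.interval _ _, UU.claw _ _, UU.not_cw c⟩

end Pool.Agent.H73R2.Iv
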